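import Pool.Agent.Y755.FK.Stm
import Pool.Agent.Y757.LL.Landau
import Pool.Agent.Y757.LS.G
import Pool.Agent.H379R2.SW2

/-!
# Landau's inequality for the real part of the logarithmic derivative of Dirichlet L-functions
-/

set_option autoImplicit false

open Complex Filter Topology Set Metric

namespace Pool.Agent.Y568.FK

/-! ### the general inequality -/

lemma list_sum_re_nonneg (L : List ℂ) (f : ℂ → ℂ) (h : ∀ r ∈ L, 0 ≤ (f r).re) :
    0 ≤ ((L.map f).sum).re := by
  induction L with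
  | nil => simp
  | cons a L ih =>
    simp only [List.map_cons, List.sum_cons, add_re]
    have h1 := h a (by simp)
    have h2 := ih fun r hr => h r (by simp [hr])
    linarith

lemma inv_re_nonneg {s ρ : ℂ} (hs : 1 < s.re) (hρ : ρ.re ≤ 1) : 0 ≤ ((s - ρ)⁻¹).re := by
  rw [inv_re]
  refine div_nonneg ?_ (normSq_nonneg _)
  rw [sub_re]
  linarith

lemma exists_perm {L : List ℂ} {a : ℂ} (h : a ∈ L) : ∃ L' : List ℂ, L.Perm (a :: L') := by
  obtain ⟨l₁, l₂, e⟩ := List.append_of_mem h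
  exact ⟨l₁ ++ l₂, by rw [e]; exact List.perm_middle⟩

/-- the numerical constant -/
noncomputable def KK : ℝ := 8 * (3 / 4) / (1 / 4) ^ 2 * (1 + |Real.log 6| / Real.log (7 / 6) + 1)

lemma KK_nonneg : 0 ≤ KK := by
  have : 0 < Real.log (7 / 6) := Real.log_pos (by norm_num)
  unfold KK
  positivity

theorem core {F : ℂ → ℂ} (hF : Differentiable ℂ F) (hz : ∀ ρ, F ρ = 0 → ρ.re ≤ 1) {s : ℂ}
    (h1 : 1 < s.re) (h2 : s.re ≤ 3 / 2) {m M : ℝ} (hm : 0 < m)
    (hmF : m ≤ ‖F ((3 / 2 : ℝ) + s.im * I)‖)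
    (hM : ∀ z ∈ closedBall (((3 / 2 : ℝ) : ℂ) + s.im * I) (7 / 8), ‖F z‖ ≤ M) :
    (-(deriv F s / F s).re ≤ KK * (Real.log (M / m) + 1)) ∧
    (∀ ρ : ℂ, F ρ = 0 → ‖s - ρ‖ ≤ 1 / 8 →
      -(deriv F s / F s).re ≤ KK * (Real.log (M / m) + 1) - (1 / (s - ρ)).re) ∧
    (∀ ρ ρ' : ℂ, F ρ = 0 → F ρ' = 0 → ‖s - ρ‖ ≤ 1 / 8 → ‖s - ρ'‖ ≤ 1 / 8 →
      (ρ ≠ ρ' ∨ deriv F ρ = 0) →
      -(deriv F s / F s).re ≤ KK * (Real.log (M / m) + 1) - (1 / (s - ρ)).re
        - (1 / (s - ρ')).re) := by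
  set c : ℂ := ((3 / 2 : ℝ) : ℂ) + s.im * I with hc
  have hFc0 : 0 < ‖F c‖ := lt_of_lt_of_le hm hmF
  have hFc : F c ≠ 0 := norm_pos_iff.1 hFc0
  have hMF : ‖F c‖ ≤ M := hM c (mem_closedBall_self (by norm_num))
  have hM0 : 0 < M := hFc0.trans_le hMF
  have hsc : ‖s - c‖ ≤ 1 / 2 := by
    have e : s - c = ((s.re - 3 / 2 : ℝ) : ℂ) := by
      apply Complex.ext <;> simp [hc]
    rw [e, Complex.norm_real, Real.norm_eq_abs, abs_le]
    constructor <;> linarith
  obtain ⟨L, G, hL1, hL2, hG, hG0, hFG, hcount, hlog⟩ :=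
    Pool.Agent.Y757.LL.landau2 F hF c (r := 1 / 2) (R1 := 3 / 4) (R2 := 7 / 8) (M := M)
      (by norm_num) (by norm_num) (by norm_num) hFc hM
  have hFs : F s ≠ 0 := fun h => by
    have := hz s h
    linarith
  have hsb : s ∈ closedBall c (1 / 2) := by
    rw [mem_closedBall, dist_eq_norm]; exact hsc
  have hD := Pool.Agent.H437R2.logDeriv_factor L F G hG hFG hFs
  -- bound for the regular part
  have hlogle : Real.log (M / ‖F c‖) ≤ Real.log (M / m) := by
    apply Real.log_le_log (by positivity)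
    gcongr
  have hlog0 : 0 ≤ Real.log (M / ‖F c‖) := Real.log_nonneg ((one_le_div hFc0).2 hMF)
  have h76 : 0 < Real.log (7 / 6) := Real.log_pos (by norm_num)
  have e76 : (7 / 8 : ℝ) / (3 / 4) = 7 / 6 := by norm_num
  have e6 : (3 / 4 : ℝ) / (7 / 8 - 3 / 4) = 6 := by norm_num
  have e4 : (3 / 4 : ℝ) - 1 / 2 = 1 / 4 := by norm_num
  rw [e76] at hcount
  have hn : (L.length : ℝ) ≤ Real.log (M / m) / Real.log (7 / 6) := by
    rw [le_div_iff₀ h76]
    exact hcount.trans hlogle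
  have hreg : ‖deriv G s / G s‖ ≤ KK * (Real.log (M / m) + 1) := by
    have h3 := hlog s hsb
    rw [e6, e4] at h3
    refine h3.trans ?_
    have h4 : Real.log (M / ‖F c‖) + L.length * |Real.log 6| + 1 ≤
        (1 + |Real.log 6| / Real.log (7 / 6) + 1) * (Real.log (M / m) + 1) := by
      have h5 : (L.length : ℝ) * |Real.log 6| ≤
          Real.log (M / m) / Real.log (7 / 6) * |Real.log 6| := by gcongr
      have h6 : Real.log (M / m) / Real.log (7 / 6) * |Real.log 6| =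
          |Real.log 6| / Real.log (7 / 6) * Real.log (M / m) := by ring
      have h7 : 0 ≤ |Real.log 6| / Real.log (7 / 6) := by positivity
      have h8 : 0 ≤ Real.log (M / m) := hlog0.trans hlogle
      nlinarith
    unfold KK
    rw [mul_assoc]
    gcongr
  have hreg' : -(deriv G s / G s).re ≤ KK * (Real.log (M / m) + 1) := by
    have := (abs_le.1 ((abs_re_le_norm (deriv G s / G s)).trans hreg)).1
    linarith
  have hnn : ∀ ρ ∈ L, 0 ≤ ((s - ρ)⁻¹).re := fun ρ hρ => inv_re_nonneg h1 (hz ρ (hL1 ρ hρ).1)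
  have hmem : ∀ ρ : ℂ, F ρ = 0 → ‖s - ρ‖ ≤ 1 / 8 → ρ ∈ L := by
    intro ρ hρ hsρ
    refine hL2 ρ ?_ hρ
    rw [mem_closedBall, dist_eq_norm]
    have : ρ - c = (s - c) - (s - ρ) := by ring
    rw [this]
    have := norm_sub_le (s - c) (s - ρ)
    linarith
  refine ⟨?_, ?_, ?_⟩
  · rw [hD, add_re]
    have := list_sum_re_nonneg L (fun r => (s - r)⁻¹) hnn
    linarith
  · intro ρ hρ hsρ
    obtain ⟨L', hp⟩ := exists_perm (hmem ρ hρ hsρ)
    have e := (hp.map (fun r => (s - r)⁻¹)).sum_eq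
    rw [List.map_cons, List.sum_cons] at e
    rw [hD, add_re, e, add_re, one_div]
    have := list_sum_re_nonneg L' (fun r => (s - r)⁻¹) fun r hr =>
      hnn r (hp.symm.subset (List.mem_cons_of_mem _ hr))
    linarith
  · intro ρ ρ' hρ hρ' hsρ hsρ' hor
    obtain ⟨L', hp⟩ := exists_perm (hmem ρ hρ hsρ)
    have hρ'L : ρ' ∈ L' := by
      by_cases hne : ρ' = ρ
      · have hd : deriv F ρ = 0 := by
          rcases hor with h | h
          · exact absurd hne.symm h
          · exact h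
        subst hne
        have hP : Differentiable ℂ fun v : ℂ => (L'.map (fun r => v - r)).prod := by
          have : ∀ L'' : List ℂ, Differentiable ℂ (fun v : ℂ =>
              (L''.map (fun r => v - r)).prod) := by
            intro L''
            induction L'' with
            | nil => simp
            | cons a L'' ih =>
              simp only [List.map_cons, List.prod_cons]
              refine Differentiable.mul ?_ ih
              fun_prop
          exact this L'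
        have hF2 : F = fun v => (v - ρ') * ((L'.map (fun r => v - r)).prod * G v) := by
          funext v
          rw [hFG v, (hp.map (fun r => v - r)).prod_eq, List.map_cons, List.prod_cons, mul_assoc]
        have hd2 : HasDerivAt F (1 * ((L'.map (fun r => ρ' - r)).prod * G ρ') +
            (ρ' - ρ') * deriv (fun v => (L'.map (fun r => v - r)).prod * G v) ρ') ρ' := by
          rw [hF2]
          exact ((hasDerivAt_id ρ').sub_const ρ').mul ((hP.mul hG) ρ').hasDerivAt
        rw [sub_self, zero_mul, add_zero, one_mul] at hd2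
        rw [hd2.deriv] at hd
        rcases mul_eq_zero.1 hd with h | h
        · rw [List.prod_eq_zero_iff, List.mem_map] at h
          obtain ⟨a, ha, hab⟩ := h
          rw [sub_eq_zero] at hab
          rw [hab]
          exact ha
        · exact absurd h (hG0 ρ' (hL1 ρ' (hmem ρ' hρ hsρ)).2)
      · have h := hp.subset (hmem ρ' hρ' hsρ')
        rcases List.mem_cons.1 h with h | h
        · exact absurd h hne
        · exact h
    obtain ⟨L'', hp'⟩ := exists_perm hρ'L
    have e := (hp.map (fun r => (s - r)⁻¹)).sum_eq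
    have e' := (hp'.map (fun r => (s - r)⁻¹)).sum_eq
    rw [List.map_cons, List.sum_cons] at e e'
    rw [hD, add_re, e, e', add_re, add_re, one_div, one_div]
    have := list_sum_re_nonneg L'' (fun r => (s - r)⁻¹) fun r hr =>
      hnn r (hp.symm.subset (List.mem_cons_of_mem _ (hp'.symm.subset (List.mem_cons_of_mem _ hr))))
    linarith

/-! ### characters -/

lemma char_lower : ∃ A : ℝ, 1 ≤ A ∧ ∀ (q : ℕ) [NeZero q] (χ : DirichletCharacter ℂ q) (s : ℂ),
    3 / 2 ≤ s.re → 1 / A ≤ ‖DirichletCharacter.LFunction χ s‖ := by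
  set K := ∑' n : ℕ, 1 / (n:ℝ) ^ (3 / 2 : ℝ) with hK
  refine ⟨max K 1, le_max_right _ _, fun q _ χ s hs => ?_⟩
  have hs1 : 1 < s.re := by linarith
  have hA : 0 < max K 1 := lt_of_lt_of_le one_pos (le_max_right _ _)
  have h1 := DirichletCharacter.LSeries.mul_mu_eq_one χ hs1
  rw [← DirichletCharacter.LFunction_eq_LSeries χ hs1] at h1
  set f : ℕ → ℂ := (fun n : ℕ => χ (n : ZMod q)) * (fun n => (ArithmeticFunction.moebius n : ℂ))
    with hf
  have h2 : ‖LSeries f s‖ ≤ max K 1 := by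
    refine (Pool.Agent.Y757.LS.lseries_bound (a := 3 / 2) (by norm_num) f (fun n => ?_) hs).trans
      (le_max_left _ _)
    have h : |ArithmeticFunction.moebius n| ≤ 1 := ArithmeticFunction.abs_moebius_le_one
    have h' : ‖((ArithmeticFunction.moebius n : ℤ) : ℂ)‖ ≤ 1 := by
      rw [Complex.norm_intCast]
      exact_mod_cast h
    rw [hf, Pi.mul_apply, norm_mul]
    exact mul_le_one₀ (χ.norm_le_one _) (norm_nonneg _) h'
  have h3 : ‖DirichletCharacter.LFunction χ s‖ * ‖LSeries f s‖ = 1 := by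
    rw [← norm_mul, h1, norm_one]
  rw [div_le_iff₀ hA]
  calc (1 : ℝ) = ‖DirichletCharacter.LFunction χ s‖ * ‖LSeries f s‖ := h3.symm
    _ ≤ ‖DirichletCharacter.LFunction χ s‖ * max K 1 := by gcongr

lemma norm_c_le (t : ℝ) {z : ℂ} (hz : z ∈ closedBall (((3 / 2 : ℝ) : ℂ) + t * I) (7 / 8)) :
    ‖z‖ ≤ |t| + 3 ∧ 5 / 8 ≤ z.re := by
  rw [mem_closedBall, dist_eq_norm] at hz
  set c : ℂ := ((3 / 2 : ℝ) : ℂ) + t * I with hc
  have hcn : ‖c‖ ≤ 3 / 2 + |t| := by
    rw [hc]
    refine (norm_add_le _ _).trans ?_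
    rw [Complex.norm_real, norm_mul, Complex.norm_I, mul_one, Complex.norm_real,
      Real.norm_eq_abs, Real.norm_eq_abs, abs_of_pos (by norm_num : (0:ℝ) < 3 / 2)]
  constructor
  · have := norm_add_le (z - c) c
    rw [sub_add_cancel] at this
    linarith
  · have h1 := (abs_le.1 ((abs_re_le_norm (z - c)).trans hz)).1
    have h2 : c.re = 3 / 2 := by simp [hc]
    rw [sub_re, h2] at h1
    linarith

lemma one_le_ell {x : ℝ} (hx : 3 ≤ x) : 1 ≤ Real.log x := by
  rw [← Real.log_exp 1]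
  apply Real.log_le_log (Real.exp_pos 1)
  have := Real.exp_one_lt_d9
  linarith

lemma char_part : ∃ C : ℝ, 0 ≤ C ∧
    ∀ (q : ℕ) [NeZero q] (χ : DirichletCharacter ℂ q), χ ≠ 1 →
    ∀ s : ℂ, 1 < s.re → s.re ≤ 3 / 2 →
      (-(deriv (DirichletCharacter.LFunction χ) s / DirichletCharacter.LFunction χ s).re ≤
        C * Real.log (q * (|s.im| + 3))) ∧
      (∀ ρ : ℂ, DirichletCharacter.LFunction χ ρ = 0 → ‖s - ρ‖ ≤ 1 / 8 →
        -(deriv (DirichletCharacter.LFunction χ) s / DirichletCharacter.LFunction χ s).re ≤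
        C * Real.log (q * (|s.im| + 3)) - (1 / (s - ρ)).re) ∧
      (∀ ρ ρ' : ℂ, DirichletCharacter.LFunction χ ρ = 0 → DirichletCharacter.LFunction χ ρ' = 0 →
        ‖s - ρ‖ ≤ 1 / 8 → ‖s - ρ'‖ ≤ 1 / 8 →
        (ρ ≠ ρ' ∨ deriv (DirichletCharacter.LFunction χ) ρ = 0) →
        -(deriv (DirichletCharacter.LFunction χ) s / DirichletCharacter.LFunction χ s).re ≤
        C * Real.log (q * (|s.im| + 3)) - (1 / (s - ρ)).re - (1 / (s - ρ')).re) := by
  obtain ⟨A, hA1, hA⟩ := char_lower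
  have hA0 : 0 < A := by linarith
  refine ⟨KK * (Real.log (24 * A) + 2), mul_nonneg KK_nonneg ?_, ?_⟩
  · have : 0 ≤ Real.log (24 * A) := Real.log_nonneg (by linarith)
    linarith
  intro q _ χ hχ s h1 h2
  have hq : (1 : ℝ) ≤ q := by exact_mod_cast NeZero.one_le
  have hF : Differentiable ℂ (DirichletCharacter.LFunction χ) :=
    DirichletCharacter.differentiable_LFunction hχ
  have hz : ∀ ρ, DirichletCharacter.LFunction χ ρ = 0 → ρ.re ≤ 1 := by
    intro ρ hρ
    by_contra hlt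
    push Not at hlt
    exact DirichletCharacter.LFunction_ne_zero_of_one_le_re χ (Or.inl hχ) hlt.le hρ
  have ht := abs_nonneg s.im
  have hM : ∀ z ∈ closedBall (((3 / 2 : ℝ) : ℂ) + s.im * I) (7 / 8),
      ‖DirichletCharacter.LFunction χ z‖ ≤ 12 * (q * (|s.im| + 5)) := by
    intro z hz
    obtain ⟨hz1, hz2⟩ := norm_c_le s.im hz
    have hN1 : 1 ≤ (q : ℝ) * (|s.im| + 5) := by nlinarith
    have h := Pool.Agent.H379R2.SW.char_norm_le hχ (s := z) (η := 2 / 5) (by norm_num)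
      (by norm_num) (by linarith) (N := q * (|s.im| + 5))
      (mul_le_mul_of_nonneg_left (by linarith) (by linarith))
    refine h.trans ?_
    have h3 : ((q : ℝ) * (|s.im| + 5)) ^ (2 * (2 / 5 : ℝ)) ≤ q * (|s.im| + 5) := by
      calc ((q : ℝ) * (|s.im| + 5)) ^ (2 * (2 / 5 : ℝ)) ≤ ((q : ℝ) * (|s.im| + 5)) ^ (1 : ℝ) :=
            Real.rpow_le_rpow_of_exponent_le hN1 (by norm_num)
        _ = _ := Real.rpow_one _
    have h4 : (9 : ℝ) + 1 / (2 / 5) ≤ 12 := by norm_num
    gcongr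
  have hmF : 1 / A ≤ ‖DirichletCharacter.LFunction χ (((3 / 2 : ℝ) : ℂ) + s.im * I)‖ :=
    hA q χ _ (by simp)
  obtain ⟨c1, c2, c3⟩ := core hF hz h1 h2 (m := 1 / A) (M := 12 * (q * (|s.im| + 5)))
    (by positivity) hmF hM
  have hx3 : 3 ≤ (q : ℝ) * (|s.im| + 3) := by nlinarith
  have hell := one_le_ell hx3
  have hlog : Real.log (12 * (q * (|s.im| + 5)) / (1 / A)) ≤
      Real.log (24 * A) + Real.log (q * (|s.im| + 3)) := by
    rw [← Real.log_mul (by positivity) (by positivity)]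
    apply Real.log_le_log (by positivity)
    rw [div_div_eq_mul_div, div_one]
    have h5 : (q : ℝ) * (|s.im| + 5) ≤ q * (2 * (|s.im| + 3)) := by gcongr; linarith
    nlinarith
  have hfin : KK * (Real.log (12 * (q * (|s.im| + 5)) / (1 / A)) + 1) ≤
      KK * (Real.log (24 * A) + 2) * Real.log (q * (|s.im| + 3)) := by
    rw [mul_assoc]
    apply mul_le_mul_of_nonneg_left _ KK_nonneg
    have h6 : 0 ≤ Real.log (24 * A) := Real.log_nonneg (by linarith)
    nlinarith
  refine ⟨c1.trans hfin, fun ρ hρ hsρ => (c2 ρ hρ hsρ).trans ?_,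
    fun ρ ρ' hρ hρ' hsρ hsρ' hor => (c3 ρ ρ' hρ hρ' hsρ hsρ' hor).trans ?_⟩
  · linarith
  · linarith

/-! ### zeta -/

lemma zeta_part : ∃ C : ℝ, 0 ≤ C ∧ ∀ s : ℂ, 1 < s.re → s.re ≤ 3 / 2 →
    -(deriv riemannZeta s / riemannZeta s).re ≤ (1 / (s - 1)).re + C * Real.log (|s.im| + 3) := by
  obtain ⟨A, hA1, hA⟩ := Pool.Agent.Y757.LS.zeta_bounds (a := 3 / 2) (by norm_num)
  have hA0 : 0 < A := by linarith
  have hlA : 0 ≤ Real.log (24 * A) := Real.log_nonneg (by linarith)
  refine ⟨KK * (Real.log (24 * A) + 3), mul_nonneg KK_nonneg (by linarith), ?_⟩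
  intro s h1 h2
  have hs1 : s ≠ 1 := by
    rintro rfl
    simp at h1
  have hs10 : s - 1 ≠ 0 := sub_ne_zero.2 hs1
  have hz0 : riemannZeta s ≠ 0 := riemannZeta_ne_zero_of_one_le_re h1.le
  have ht := abs_nonneg s.im
  set c : ℂ := ((3 / 2 : ℝ) : ℂ) + s.im * I with hc
  have hcre : c.re = 3 / 2 := by simp [hc]
  have hc1 : c ≠ 1 := by
    intro h
    have := congrArg Complex.re h
    rw [hcre] at this
    norm_num at this
  have hM : ∀ z ∈ closedBall (((3 / 2 : ℝ) : ℂ) + s.im * I) (7 / 8),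
      ‖riemannZeta₁ z‖ ≤ 3 * (|s.im| + 4) ^ 2 := by
    intro z hz
    obtain ⟨hz1, hz2⟩ := norm_c_le s.im hz
    refine (Pool.Agent.H437R2.z1_norm_le (by linarith)).trans ?_
    have : ‖z‖ + 1 ≤ |s.im| + 4 := by linarith
    gcongr
  have hmF : 1 / (2 * A) ≤ ‖riemannZeta₁ (((3 / 2 : ℝ) : ℂ) + s.im * I)‖ := by
    rw [← hc, Pool.Agent.H437R2.z1_of_ne hc1, norm_mul]
    have h3 : 1 / 2 ≤ ‖c - 1‖ := by
      have h4 := abs_re_le_norm (c - 1)
      rw [sub_re, hcre, one_re] at h4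
      refine le_trans ?_ h4
      norm_num
    have h4 := (hA c (by rw [hcre])).2
    calc 1 / (2 * A) = 1 / 2 * (1 / A) := by field_simp
      _ ≤ ‖c - 1‖ * ‖riemannZeta c‖ := by gcongr
  obtain ⟨c1, -, -⟩ := core differentiable_riemannZeta₁
    (fun ρ hρ => (Pool.Agent.H437R2.z1_zero_re hρ).le) h1 h2 (m := 1 / (2 * A))
    (M := 3 * (|s.im| + 4) ^ 2) (by positivity) hmF hM
  have hd : deriv riemannZeta₁ s = riemannZeta s + (s - 1) * deriv riemannZeta s := by
    have h1 : HasDerivAt (fun w => (w - 1) * riemannZeta w)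
        (1 * riemannZeta s + (s - 1) * deriv riemannZeta s) s :=
      ((hasDerivAt_id s).sub_const 1).mul (differentiableAt_riemannZeta hs1).hasDerivAt
    have h2 : riemannZeta₁ =ᶠ[𝓝 s] fun w => (w - 1) * riemannZeta w := by
      filter_upwards [isOpen_ne.mem_nhds hs1] with w hw using Pool.Agent.H437R2.z1_of_ne hw
    rw [h2.deriv_eq, h1.deriv, one_mul]
  have e : deriv riemannZeta₁ s / riemannZeta₁ s =
      1 / (s - 1) + deriv riemannZeta s / riemannZeta s := by
    rw [hd, Pool.Agent.H437R2.z1_of_ne hs1]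
    field_simp
  rw [e, add_re] at c1
  have hell := one_le_ell (x := |s.im| + 3) (by linarith)
  have hlog : Real.log (3 * (|s.im| + 4) ^ 2 / (1 / (2 * A))) ≤
      Real.log (24 * A) + 2 * Real.log (|s.im| + 3) := by
    have e2 : 2 * Real.log (|s.im| + 3) = Real.log ((|s.im| + 3) ^ 2) := by
      rw [Real.log_pow]; norm_num
    rw [e2, ← Real.log_mul (by positivity) (by positivity)]
    apply Real.log_le_log (by positivity)
    rw [div_div_eq_mul_div, div_one]
    have h5 : (|s.im| + 4) ^ 2 ≤ 4 * (|s.im| + 3) ^ 2 := by nlinarith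
    nlinarith
  have hfin : KK * (Real.log (3 * (|s.im| + 4) ^ 2 / (1 / (2 * A))) + 1) ≤
      KK * (Real.log (24 * A) + 3) * Real.log (|s.im| + 3) := by
    rw [mul_assoc]
    apply mul_le_mul_of_nonneg_left _ KK_nonneg
    nlinarith
  linarith

/-! ### the trivial character -/

lemma local_factor {p : ℕ} (hp : p.Prime) {s : ℂ} (hs : 1 < s.re) :
    (1 - (p : ℂ) ^ (-s) ≠ 0) ∧ DifferentiableAt ℂ (fun w : ℂ => 1 - (p : ℂ) ^ (-w)) s ∧
    ‖logDeriv (fun w : ℂ => 1 - (p : ℂ) ^ (-w)) s‖ ≤ Real.log p := by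
  have hp0 : (p : ℂ) ≠ 0 := by exact_mod_cast hp.ne_zero
  have hp2 : (2 : ℝ) ≤ p := by exact_mod_cast hp.two_le
  have hlp : 0 ≤ Real.log p := Real.log_nonneg (by linarith)
  have hn : ‖(p : ℂ) ^ (-s)‖ ≤ 1 / 2 := by
    rw [norm_natCast_cpow_of_pos hp.pos, neg_re, Real.rpow_neg (by positivity)]
    have h1 : (p : ℝ) ^ (1 : ℝ) ≤ (p : ℝ) ^ s.re :=
      Real.rpow_le_rpow_of_exponent_le (by linarith) hs.le
    rw [Real.rpow_one] at h1
    rw [one_div]
    apply inv_anti₀ (by norm_num)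
    linarith
  have hne : 1 - (p : ℂ) ^ (-s) ≠ 0 := by
    intro h
    rw [sub_eq_zero] at h
    rw [← h, norm_one] at hn
    norm_num at hn
  have hd : HasDerivAt (fun w : ℂ => 1 - (p : ℂ) ^ (-w)) ((p : ℂ) ^ (-s) * Complex.log p) s := by
    have h1 : HasDerivAt (fun w : ℂ => (p : ℂ) ^ (-w)) ((p : ℂ) ^ (-s) * Complex.log p * (-1)) s :=
      ((hasDerivAt_id s).neg).const_cpow (Or.inl hp0)
    have h2 := h1.const_sub 1
    have e : -((p : ℂ) ^ (-s) * Complex.log p * (-1)) = (p : ℂ) ^ (-s) * Complex.log p := by ring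
    rw [e] at h2
    exact h2
  refine ⟨hne, hd.differentiableAt, ?_⟩
  rw [logDeriv_apply, hd.deriv, norm_div, norm_mul]
  have h3 : 1 / 2 ≤ ‖1 - (p : ℂ) ^ (-s)‖ := by
    have := norm_sub_norm_le (1 : ℂ) ((p : ℂ) ^ (-s))
    rw [norm_one] at this
    linarith
  have h4 : ‖Complex.log p‖ = Real.log p := by
    rw [← Complex.ofReal_natCast, ← Complex.ofReal_log (by positivity), Complex.norm_real,
      Real.norm_of_nonneg hlp]
  rw [h4, div_le_iff₀ (by linarith)]
  nlinarith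

lemma sum_log_le (q : ℕ) [NeZero q] : ∑ p ∈ q.primeFactors, Real.log p ≤ Real.log q := by
  have hpos : ∀ p ∈ q.primeFactors, (p : ℝ) ≠ 0 := fun p hp => by
    exact_mod_cast (Nat.prime_of_mem_primeFactors hp).ne_zero
  rw [← Real.log_prod hpos]
  have h1 : ∏ p ∈ q.primeFactors, p ≤ q :=
    Nat.le_of_dvd (Nat.pos_of_ne_zero (NeZero.ne q)) (Nat.prod_primeFactors_dvd q)
  apply Real.log_le_log
  · exact Finset.prod_pos fun p hp => by
      exact_mod_cast (Nat.prime_of_mem_primeFactors hp).pos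
  · have h2 : ((∏ p ∈ q.primeFactors, p : ℕ) : ℝ) ≤ (q : ℝ) := Nat.cast_le.2 h1
    rw [Nat.cast_prod] at h2
    exact h2

lemma triv_part {q : ℕ} [NeZero q] {s : ℂ} (h1 : 1 < s.re) :
    -(deriv (DirichletCharacter.LFunction (1 : DirichletCharacter ℂ q)) s /
      DirichletCharacter.LFunction (1 : DirichletCharacter ℂ q) s).re ≤
      -(deriv riemannZeta s / riemannZeta s).re + Real.log q := by
  have hs1 : s ≠ 1 := by
    rintro rfl
    simp at h1
  have hz0 : riemannZeta s ≠ 0 := riemannZeta_ne_zero_of_one_le_re h1.le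
  have heq : DirichletCharacter.LFunction (1 : DirichletCharacter ℂ q) =ᶠ[𝓝 s]
      fun w => (∏ p ∈ q.primeFactors, (1 - (p : ℂ) ^ (-w))) * riemannZeta w := by
    filter_upwards [isOpen_ne.mem_nhds hs1] with w hw
    exact DirichletCharacter.LFunctionTrivChar_eq_mul_riemannZeta hw
  have hpr : ∀ p ∈ q.primeFactors, p.Prime := fun p hp => Nat.prime_of_mem_primeFactors hp
  have h2 : deriv (DirichletCharacter.LFunction (1 : DirichletCharacter ℂ q)) s /
      DirichletCharacter.LFunction (1 : DirichletCharacter ℂ q) s =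
      (∑ p ∈ q.primeFactors, logDeriv (fun w : ℂ => 1 - (p : ℂ) ^ (-w)) s) +
        deriv riemannZeta s / riemannZeta s := by
    rw [heq.deriv_eq, heq.eq_of_nhds]
    change logDeriv (fun w => (∏ p ∈ q.primeFactors, (1 - (p : ℂ) ^ (-w))) * riemannZeta w) s = _
    rw [logDeriv_mul s (Finset.prod_ne_zero_iff.2 fun p hp => (local_factor (hpr p hp) h1).1) hz0
      (DifferentiableAt.fun_finsetProd fun p hp => (local_factor (hpr p hp) h1).2.1)
      (differentiableAt_riemannZeta hs1)]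
    congr 1
    exact logDeriv_prod (fun p hp => (local_factor (hpr p hp) h1).1)
      (fun p hp => (local_factor (hpr p hp) h1).2.1)
  rw [h2, add_re]
  have h3 : ‖∑ p ∈ q.primeFactors, logDeriv (fun w : ℂ => 1 - (p : ℂ) ^ (-w)) s‖ ≤ Real.log q :=
    (norm_sum_le_of_le _ fun p hp => (local_factor (hpr p hp) h1).2.2).trans (sum_log_le q)
  have h4 := (abs_le.1 ((abs_re_le_norm _).trans h3)).1
  linarith

theorem t_LD : Pool.Agent.Y755.FK.S_LD := by
  obtain ⟨C1, hC1, hchar⟩ := char_part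
  obtain ⟨C2, hC2, hzeta⟩ := zeta_part
  refine ⟨C1 + C2 + 1, by linarith, ?_, ?_⟩
  · intro q _ χ hχ s h1 h2
    have hq : (1 : ℝ) ≤ q := by exact_mod_cast NeZero.one_le
    have ht := abs_nonneg s.im
    have hx3 : 3 ≤ (q : ℝ) * (|s.im| + 3) := by nlinarith
    have hell := one_le_ell hx3
    have hle : C1 * Real.log (q * (|s.im| + 3)) ≤ (C1 + C2 + 1) * Real.log (q * (|s.im| + 3)) := by
      gcongr
      linarith
    obtain ⟨c1, c2, c3⟩ := hchar q χ hχ s h1 h2
    refine ⟨c1.trans hle, fun ρ hρ hsρ => (c2 ρ hρ hsρ).trans ?_,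
      fun ρ ρ' hρ hρ' hsρ hsρ' hor => (c3 ρ ρ' hρ hρ' hsρ hsρ' hor).trans ?_⟩
    · linarith
    · linarith
  · intro q _ s h1 h2
    have hq : (1 : ℝ) ≤ q := by exact_mod_cast NeZero.one_le
    have ht := abs_nonneg s.im
    have hx3 : 3 ≤ (q : ℝ) * (|s.im| + 3) := by nlinarith
    have hell := one_le_ell hx3
    have h3 := triv_part (q := q) h1
    have h4 := hzeta s h1 h2
    have h5 : Real.log (|s.im| + 3) ≤ Real.log (q * (|s.im| + 3)) := by
      apply Real.log_le_log (by positivity)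
      nlinarith
    have h6 : Real.log q ≤ Real.log (q * (|s.im| + 3)) := by
      apply Real.log_le_log (by positivity)
      nlinarith
    nlinarith

end Pool.Agent.Y568.FK
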